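import Pool.Agent.Lib.MP_6bc78b_nt.MS.QZ.Iface

/-! Project MS, Part QZ, module PSM (helper5). -/

set_option autoImplicit false

open ArithmeticFunction

namespace Pool.Agent.Lib.MP_6bc78b_nt.MS.QZ

namespace Psm

/-- Sums with weight `1/n`. -/
def WS (f : ArithmeticFunction ℝ) (a : ℝ) : Prop := HasSum (fun n : ℕ => f n / (n : ℝ)) a

theorem WS_iff (f : ArithmeticFunction ℝ) (a : ℝ) :
    WS f a ↔ LSeriesHasSum (fun n => toC f n) 1 (a : ℂ) := by
  unfold WS LSeriesHasSum
  rw [← Complex.hasSum_ofReal]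
  have : (fun n : ℕ => (((f n / (n : ℝ)) : ℝ) : ℂ)) = LSeries.term (fun n => toC f n) 1 := by
    funext n
    by_cases hn : n = 0
    · subst hn
      simp
    · rw [LSeries.term_of_ne_zero hn]
      simp [toC_apply]
  rw [this]

theorem WS_mul {f g : ArithmeticFunction ℝ} {a b : ℝ} (hf : WS f a) (hg : WS g b) :
    WS (f * g) (a * b) := by
  rw [WS_iff] at *
  rw [toC_mul]
  have := ArithmeticFunction.LSeriesHasSum_mul hf hg
  rw [Complex.ofReal_mul]
  exact this

theorem WS_one : WS 1 1 := by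
  unfold WS
  have := hasSum_ite_eq (1 : ℕ) (1 : ℝ)
  refine this.congr_fun ?_
  intro n
  rw [ArithmeticFunction.one_apply]
  by_cases h : n = 1
  · simp [h]
  · simp [h]

theorem WS_pS (S : Finset ℕ) (hS : IsPr S) : WS (pS S) (rs S) := by
  unfold WS rs
  have h : ∀ p ∈ S, (p : ℝ)⁻¹ = pS S p / (p : ℝ) := by
    intro p hp
    have : pS S p = 1 := by
      change (if p ∈ S ∧ p.Prime then (1 : ℝ) else 0) = 1
      rw [if_pos ⟨hp, hS p hp⟩]
    rw [this, one_div]
  rw [Finset.sum_congr rfl h]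
  apply hasSum_sum_of_ne_finset_zero
  intro n hn
  have : pS S n = 0 := by
    change (if n ∈ S ∧ n.Prime then (1 : ℝ) else 0) = 0
    rw [if_neg (fun h => hn h.1)]
  rw [this, zero_div]

theorem WS_pow (S : Finset ℕ) (hS : IsPr S) (j : ℕ) : WS (pS S ^ j) (rs S ^ j) := by
  induction j with
  | zero => simpa using WS_one
  | succ j ih =>
    rw [pow_succ, pow_succ]
    exact WS_mul ih (WS_pS S hS)

theorem pS_nonneg (S : Finset ℕ) (n : ℕ) : 0 ≤ pS S n := by
  change 0 ≤ (if n ∈ S ∧ n.Prime then (1 : ℝ) else 0)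
  split_ifs <;> norm_num

theorem pow_nonneg' (S : Finset ℕ) (j : ℕ) : ∀ n, 0 ≤ (pS S ^ j) n := by
  induction j with
  | zero =>
    intro n
    rw [pow_zero, ArithmeticFunction.one_apply]
    split_ifs <;> norm_num
  | succ j ih =>
    intro n
    rw [pow_succ, ArithmeticFunction.mul_apply]
    exact Finset.sum_nonneg fun x _ => mul_nonneg (ih _) (pS_nonneg S _)

theorem ae_term (hV : VnuStatement) (x : ℝ) (S : Finset ℕ) (n : ℕ) :
    HasSum (fun j : ℕ => x ^ j / (j.factorial : ℝ) * ((pS S ^ j) n / (n : ℝ)))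
      (ae x S n / (n : ℝ)) := by
  by_cases hn : n = 0
  · subst hn
    simpa using (hasSum_zero (α := ℝ) (β := ℕ))
  · have h1 : ∀ j, j ≠ cardFactors n →
        x ^ j / (j.factorial : ℝ) * ((pS S ^ j) n / (n : ℝ)) = 0 := by
      intro j hj
      rw [hV.1 S j n hn, if_neg (fun h => hj h.2.symm)]
      simp
    have h2 := hasSum_single (cardFactors n) h1
    have h3 : ae x S n / (n : ℝ) = x ^ (cardFactors n) / ((cardFactors n).factorial : ℝ) *
        ((pS S ^ (cardFactors n)) n / (n : ℝ)) := by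
      rw [hV.1 S (cardFactors n) n hn]
      have : ae x S n =
        if n ≠ 0 ∧ n.primeFactors ⊆ S then x ^ (cardFactors n) * nu n else 0 := rfl
      rw [this]
      by_cases hS : n.primeFactors ⊆ S
      · rw [if_pos ⟨hn, hS⟩, if_pos ⟨hS, rfl⟩]
        have : ((cardFactors n).factorial : ℝ) ≠ 0 := by positivity
        field_simp
      · rw [if_neg (fun h => hS h.2), if_neg (fun h => hS h.1)]
        simp
    rw [h3]
    exact h2

theorem WS_ae (hV : VnuStatement) (S : Finset ℕ) (x : ℝ) (hS : IsPr S) (hx : 0 ≤ x) :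
    WS (ae x S) (Real.exp (x * rs S)) := by
  set F : ℕ × ℕ → ℝ := fun q => x ^ q.1 / (q.1.factorial : ℝ) * ((pS S ^ q.1) q.2 / (q.2 : ℝ))
    with hF
  have hF0 : 0 ≤ F := by
    intro q
    have := pow_nonneg' S q.1 q.2
    simp only [hF, Pi.zero_apply]
    positivity
  have hin : ∀ j, HasSum (fun n => F (j, n)) (x ^ j / (j.factorial : ℝ) * rs S ^ j) := by
    intro j
    exact (WS_pow S hS j).mul_left _
  have hexp : HasSum (fun j : ℕ => x ^ j / (j.factorial : ℝ) * rs S ^ j)
      (Real.exp (x * rs S)) := by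
    have := NormedSpace.expSeries_div_hasSum_exp (x * rs S)
    rw [← Real.exp_eq_exp_ℝ] at this
    refine this.congr_fun ?_
    intro j
    rw [mul_pow]
    ring
  have hsum : Summable F := by
    rw [summable_prod_of_nonneg hF0]
    refine ⟨fun j => (hin j).summable, ?_⟩
    have : (fun j => ∑' n, F (j, n)) = fun j : ℕ => x ^ j / (j.factorial : ℝ) * rs S ^ j := by
      funext j
      exact (hin j).tsum_eq
    rw [this]
    exact hexp.summable
  have htot : HasSum F (Real.exp (x * rs S)) := by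
    have h1 := hsum.hasSum
    have h2 := h1.prod_fiberwise hin
    rw [h2.unique hexp] at h1
    exact h1
  have hswap : HasSum (fun q : ℕ × ℕ => F (q.2, q.1)) (Real.exp (x * rs S)) :=
    (Equiv.prodComm ℕ ℕ).hasSum_iff.2 htot
  exact hswap.prod_fiberwise (fun n => ae_term hV x S n)

end Psm

/-- PSM. -/
theorem psm (hV : VnuStatement) : PsmStatement :=
  ⟨fun S j hS => Psm.WS_pow S hS j, fun S x hS hx => Psm.WS_ae hV S x hS hx⟩

end Pool.Agent.Lib.MP_6bc78b_nt.MS.QZ
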