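import Pool.Agent.Lib.MP_6bc78b_nt.MS.QZ.Iface

/-! Project MS, Part QZ, module VNU (helper5). -/

set_option autoImplicit false

open ArithmeticFunction

namespace Pool.Agent.Lib.MP_6bc78b_nt.MS.QZ

namespace Vnu

theorem pS_apply (S : Finset ℕ) (n : ℕ) : pS S n = if n ∈ S ∧ n.Prime then 1 else 0 := rfl

theorem nu_one : nu 1 = 1 := by simp [nu]

theorem nu_eq_insert (p m : ℕ) (hp : p.Prime) :
    nu m = ∏ q ∈ insert p m.primeFactors, (1 / ((m.factorization q).factorial : ℝ)) := by
  unfold nu
  by_cases h : p ∈ m.primeFactors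
  · rw [Finset.insert_eq_of_mem h]
  · rw [Finset.prod_insert h]
    have : m.factorization p = 0 := by
      rw [← Finsupp.notMem_support_iff, Nat.support_factorization]
      exact h
    rw [this]
    simp

theorem nu_prime_mul (p m : ℕ) (hp : p.Prime) (hm : m ≠ 0) :
    nu m = nu (p * m) * ((p * m).factorization p : ℝ) := by
  rw [nu_eq_insert p m hp]
  unfold nu
  rw [Nat.primeFactors_mul hp.ne_zero hm, hp.primeFactors]
  have he : ({p} : Finset ℕ) ∪ m.primeFactors = insert p m.primeFactors := rfl
  rw [he]
  have hfp : (p * m).factorization p = m.factorization p + 1 := by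
    rw [Nat.factorization_mul hp.ne_zero hm]
    simp [hp.factorization, add_comm]
  have hfq : ∀ q, q ≠ p → (p * m).factorization q = m.factorization q := by
    intro q hq
    rw [Nat.factorization_mul hp.ne_zero hm]
    simp [hp.factorization, Finsupp.single_apply, hq.symm]
  rw [← Finset.mul_prod_erase _ _ (Finset.mem_insert_self p m.primeFactors),
    ← Finset.mul_prod_erase _ (fun q => (1 / (((p * m).factorization q).factorial : ℝ)))
      (Finset.mem_insert_self p m.primeFactors)]
  have h2 : ∏ x ∈ (insert p m.primeFactors).erase p, (1 / (((p * m).factorization x).factorial : ℝ))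
      = ∏ x ∈ (insert p m.primeFactors).erase p, (1 / ((m.factorization x).factorial : ℝ)) := by
    apply Finset.prod_congr rfl
    intro q hq
    rw [hfq q (Finset.ne_of_mem_erase hq)]
  rw [h2, hfp, Nat.factorial_succ]
  push_cast
  have h3 : ((m.factorization p).factorial : ℝ) ≠ 0 := by positivity
  have h4 : ((m.factorization p : ℝ) + 1) ≠ 0 := by positivity
  field_simp

/-- The recursion. -/
theorem pow_succ_apply (S : Finset ℕ) (j n : ℕ) (hn : n ≠ 0) :
    (pS S ^ (j + 1)) n = ∑ p ∈ n.primeFactors, if p ∈ S then (pS S ^ j) (n / p) else 0 := by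
  rw [pow_succ', ArithmeticFunction.mul_apply]
  have h1 : ∑ x ∈ n.divisorsAntidiagonal, pS S x.1 * (pS S ^ j) x.2
      = ∑ d ∈ n.divisors, pS S d * (pS S ^ j) (n / d) :=
    Nat.sum_divisorsAntidiagonal (f := fun a b => pS S a * (pS S ^ j) b)
  rw [h1]
  have h2 : n.primeFactors ⊆ n.divisors := by
    intro p hp
    exact Nat.mem_divisors.2 ⟨Nat.dvd_of_mem_primeFactors hp, hn⟩
  symm
  rw [← Finset.sum_subset h2]
  · apply Finset.sum_congr rfl
    intro p hp
    rw [pS_apply]
    by_cases h : p ∈ S
    · simp [h, Nat.prime_of_mem_primeFactors hp]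
    · simp [h]
  · intro d hd hd'
    rw [pS_apply]
    have : ¬ d.Prime := by
      intro hpr
      apply hd'
      exact Nat.mem_primeFactors.2 ⟨hpr, Nat.dvd_of_mem_divisors hd, hn⟩
    simp [this]

theorem part1 (S : Finset ℕ) (j : ℕ) : ∀ n : ℕ, n ≠ 0 → (pS S ^ j) n =
    if n.primeFactors ⊆ S ∧ cardFactors n = j then (j.factorial : ℝ) * nu n else 0 := by
  induction j with
  | zero =>
    intro n hn
    rw [pow_zero, ArithmeticFunction.one_apply]
    by_cases h : n = 1
    · subst h
      simp [nu_one]
    · have : cardFactors n ≠ 0 := by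
        intro h0
        rcases ArithmeticFunction.cardFactors_eq_zero_iff_eq_zero_or_one.1 h0 with h1 | h1
        · exact hn h1
        · exact h h1
      simp [h, this]
  | succ j ih =>
    intro n hn
    rw [pow_succ_apply S j n hn]
    have key : ∀ p ∈ n.primeFactors, n / p ≠ 0 ∧ p * (n / p) = n ∧ p.Prime := by
      intro p hp
      have hd := Nat.dvd_of_mem_primeFactors hp
      have hpr := Nat.prime_of_mem_primeFactors hp
      refine ⟨?_, Nat.mul_div_cancel' hd, hpr⟩
      exact (Nat.div_pos (Nat.le_of_dvd (Nat.pos_of_ne_zero hn) hd) hpr.pos).ne'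
    by_cases hS : n.primeFactors ⊆ S
    · have hterm : ∀ p ∈ n.primeFactors, (if p ∈ S then (pS S ^ j) (n / p) else 0)
          = if cardFactors n = j + 1 then
            (j.factorial : ℝ) * nu n * (n.factorization p : ℝ) else 0 := by
        intro p hp
        obtain ⟨hm, hpm, hpr⟩ := key p hp
        rw [if_pos (hS hp), ih _ hm]
        have hc : cardFactors n = cardFactors (n / p) + 1 := by
          conv_lhs => rw [← hpm]
          rw [ArithmeticFunction.cardFactors_mul hpr.ne_zero hm,
            ArithmeticFunction.cardFactors_apply_prime hpr, add_comm]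
        have hsub : (n / p).primeFactors ⊆ S := by
          intro q hq
          apply hS
          rw [← hpm, Nat.primeFactors_mul hpr.ne_zero hm]
          exact Finset.mem_union_right _ hq
        have hnu : nu (n / p) = nu n * (n.factorization p : ℝ) := by
          have := nu_prime_mul p (n / p) hpr hm
          rwa [hpm] at this
        by_cases hj : cardFactors (n / p) = j
        · rw [if_pos ⟨hsub, hj⟩, if_pos (by rw [hc, hj]), hnu]
          ring
        · rw [if_neg (fun h => hj h.2), if_neg (by rw [hc]; omega)]
      rw [Finset.sum_congr rfl hterm]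
      by_cases hj : cardFactors n = j + 1
      · rw [if_pos ⟨hS, hj⟩]
        simp only [hj, if_true]
        rw [← Finset.mul_sum]
        have hsum : ∑ p ∈ n.primeFactors, (n.factorization p : ℝ) = (j + 1 : ℕ) := by
          rw [← Nat.cast_sum]
          have : ∑ p ∈ n.primeFactors, n.factorization p = cardFactors n := by
            rw [ArithmeticFunction.cardFactors_eq_sum_factorization]
            rfl
          rw [this, hj]
        rw [hsum, Nat.factorial_succ]
        push_cast
        ring
      · rw [if_neg (fun h => hj h.2)]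
        simp [hj]
    · rw [if_neg (fun h => hS h.1)]
      apply Finset.sum_eq_zero
      intro p hp
      by_cases hpS : p ∈ S
      · rw [if_pos hpS]
        obtain ⟨hm, hpm, hpr⟩ := key p hp
        rw [ih _ hm, if_neg]
        rintro ⟨h1, -⟩
        apply hS
        intro q hq
        by_cases hqp : q = p
        · rw [hqp]; exact hpS
        · apply h1
          rw [← hpm, Nat.primeFactors_mul hpr.ne_zero hm, hpr.primeFactors] at hq
          rcases Finset.mem_union.1 hq with h | h
          · exact absurd (Finset.mem_singleton.1 h) hqp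
          · exact h
      · rw [if_neg hpS]

theorem part2 (α : ℝ) (S : Finset ℕ) (K n : ℕ) :
    ac α S K n = if cardFactors n ≤ K then ae α S n else 0 := by
  have hdef : ac α S K n =
      ∑ j ∈ Finset.range (K + 1), α ^ j / (j.factorial : ℝ) * (pS S ^ j) n := rfl
  by_cases hn : n = 0
  · subst hn
    simp
  have hae : ae α S n =
      if n ≠ 0 ∧ n.primeFactors ⊆ S then α ^ (cardFactors n) * nu n else 0 := rfl
  rw [hdef, hae]
  have hterm : ∀ j ∈ Finset.range (K + 1), α ^ j / (j.factorial : ℝ) * (pS S ^ j) n
      = if j = cardFactors n then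
        (if n.primeFactors ⊆ S then α ^ (cardFactors n) * nu n else 0) else 0 := by
    intro j _
    rw [part1 S j n hn]
    by_cases hj : j = cardFactors n
    · rw [if_pos hj]
      by_cases hS : n.primeFactors ⊆ S
      · rw [if_pos ⟨hS, hj.symm⟩, if_pos hS, ← hj]
        have : (j.factorial : ℝ) ≠ 0 := by positivity
        field_simp
      · rw [if_neg (fun h => hS h.1), if_neg hS, mul_zero]
    · rw [if_neg (fun h => hj h.2.symm), if_neg hj, mul_zero]
  rw [Finset.sum_congr rfl hterm, Finset.sum_ite_eq']
  simp [hn, Nat.lt_succ_iff]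

end Vnu

/-- VNU. -/
theorem vnu : VnuStatement :=
  ⟨fun S j n hn => Vnu.part1 S j n hn, fun α S K n => Vnu.part2 α S K n⟩

end Pool.Agent.Lib.MP_6bc78b_nt.MS.QZ
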